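import Pool.Agent.Helper501.Eps.Main

/-!
Bisimilarity over BPA with the empty process and the binary Kleene star is not finitely based. All
definitions used in the statement are in Pool.Agent.Helper501.Eps.Defs.
-/

namespace Pool.Agent.Results.MP_32323c_lc.NoFiniteBasis

open Pool.Agent.Helper501.Eps

/-- Sanity check: bases exist. -/
theorem exists_basis (A : Type*) : ∃ E : Set (Term (A ⊕ ℕ) × Term (A ⊕ ℕ)), IsBasis E :=
  ⟨_, isBasis_valid A⟩

/-- For every nonempty set A of actions, bisimilarity over the terms built from the empty process,
actions, alternative composition, sequential composition and binary Kleene star has no finite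
equational basis. -/
theorem result (A : Type*) [Nonempty A] : ¬ FinitelyBased A := by
  rintro ⟨E, hfin, hE⟩
  exact main E hE hfin

end Pool.Agent.Results.MP_32323c_lc.NoFiniteBasis
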